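import Pool.Agent.W25.UN.Stm2
import Pool.Agent.H361R2.Ana
import Pool.Agent.H410R2.MFin2

/-! Project UN (helper25), part ER: total error of the second sums. -/

set_option autoImplicit false

namespace Pool.Agent.W493.UN.ER

open Finset Filter Topology
open Pool.Agent.H410R2 (BVAP ProdBound OmegaBound psiLogAP psiLog1 ev_polylog
  prod_le_prod_subset aux_p)
open Pool.Agent.H362R2.CM (IP prP)
open Pool.Agent.W25.UN

/-- the worst class -/
theorem est_class (X : ℝ) (M : ℕ) : ∃ r : ℕ, r.Coprime M ∧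
    Est X M ≤ |psiLogAP X M r - psiLog1 X / (Nat.totient M : ℝ)| := by
  classical
  unfold Est
  obtain ⟨r, hr, he⟩ := Finset.exists_mem_eq_sup' (s := range (M + 1)) ⟨0, by simp⟩
    (fun r => if r.Coprime M then
      |psiLogAP X M r - psiLog1 X / (Nat.totient M : ℝ)| else 0)
  by_cases h : r.Coprime M
  · refine ⟨r, h, ?_⟩
    rw [he, if_pos h]
  · refine ⟨1, Nat.coprime_one_left M, ?_⟩
    rw [he, if_neg h]
    exact abs_nonneg _

theorem est_nonneg (X : ℝ) (M : ℕ) : 0 ≤ Est X M := by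
  classical
  unfold Est
  refine le_trans ?_ (Finset.le_sup' (s := range (M + 1)) (fun r => if r.Coprime M then
      |psiLogAP X M r - psiLog1 X / (Nat.totient M : ℝ)| else 0) (b := 0) (by simp))
  split_ifs
  · exact abs_nonneg _
  · exact le_rfl

theorem est_sum {m0 : ℕ} {c s X T : ℝ} (hc : 1 ≤ c)
    (hX : ∀ r : ℕ → ℕ,
    ∑ q ∈ (Icc 1 ⌊X ^ s⌋₊).filter (fun q => Squarefree q ∧ (r q).Coprime (m0 * q)),
      c ^ q.primeFactors.card *
        |psiLogAP X (m0 * q) (r q) - psiLog1 X / (Nat.totient (m0 * q) : ℝ)| ≤ T)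
    {R : ℝ} (hR : R ≤ X ^ s) :
    ∑ q ∈ (Icc 1 ⌊R⌋₊).filter Squarefree, c ^ q.primeFactors.card * Est X (m0 * q) ≤ T := by
  choose r hr hr' using fun q => est_class X (m0 * q)
  refine le_trans ?_ (hX r)
  calc ∑ q ∈ (Icc 1 ⌊R⌋₊).filter Squarefree, c ^ q.primeFactors.card * Est X (m0 * q)
      ≤ ∑ q ∈ (Icc 1 ⌊R⌋₊).filter Squarefree, c ^ q.primeFactors.card *
        |psiLogAP X (m0 * q) (r q) - psiLog1 X / (Nat.totient (m0 * q) : ℝ)| := by
        apply Finset.sum_le_sum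
        intro q _
        exact mul_le_mul_of_nonneg_left (hr' q) (by positivity)
    _ ≤ _ := by
        apply Finset.sum_le_sum_of_subset_of_nonneg
        · intro q hq
          rw [Finset.mem_filter, Finset.mem_Icc] at hq ⊢
          exact ⟨⟨hq.1.1, hq.1.2.trans (Nat.floor_le_floor hR)⟩, hq.2, hr q⟩
        · intro q _ _
          positivity

theorem prod_le {K : ℝ} (hK : 0 ≤ K) : ∃ C : ℝ, 0 < C ∧ ∃ m : ℕ, ∀ N : ℕ, 3 ≤ N →
    ∀ P : Finset ℕ, (∀ p ∈ P, p.Prime ∧ (p : ℝ) ≤ N) →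
      ∏ t : IP P, (1 + K / (prP P t : ℝ)) ≤ C * (Real.log N) ^ m := by
  obtain ⟨C, hC, m, h⟩ := Pool.Agent.H361R2.prodBound K hK
  refine ⟨C, hC, m, ?_⟩
  intro N hN P hP
  have h3 : ∏ t : IP P, (1 + K / (prP P t : ℝ)) = ∏ p ∈ P, (1 + K / (p : ℝ)) :=
    Finset.prod_coe_sort P (fun p => 1 + K / (p : ℝ))
  rw [h3]
  refine le_trans ?_ (h N (by exact_mod_cast hN))
  apply prod_le_prod_subset
  · intro p hp
    have h1 := hP p hp
    rw [Finset.mem_filter, Finset.mem_Icc]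
    refine ⟨⟨h1.1.one_le, ?_⟩, h1.1⟩
    rw [Nat.floor_natCast]
    exact_mod_cast h1.2
  · intro p _
    have : 0 ≤ K / (p : ℝ) := by positivity
    linarith

theorem prefac {K : ℝ} (hK : 0 ≤ K) : ∃ C : ℝ, 0 < C ∧ ∃ m : ℕ, ∀ N : ℕ, 3 ≤ N →
    ∀ P : Finset ℕ, (∀ p ∈ P, p.Prime ∧ (p : ℝ) ≤ N) →
      (∏ t : IP P, (1 + K / ((prP P t : ℝ) - 1)) *
        ((prP P t : ℝ) / ((prP P t : ℝ) - 1))) ^ 2 ≤ C * (Real.log N) ^ m := by
  obtain ⟨C1, hC1, m1, h1⟩ := prod_le (K := 2 * K) (by positivity)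
  obtain ⟨C2, hC2, m2, h2⟩ := prod_le (K := 2) (by norm_num)
  refine ⟨(C1 * C2) ^ 2, by positivity, (m1 + m2) * 2, ?_⟩
  intro N hN P hP
  have h1 := h1 N hN P hP
  have h2 := h2 N hN P hP
  have hN' : (1 : ℝ) ≤ N := by exact_mod_cast (by omega : 1 ≤ N)
  have hl : 0 ≤ Real.log N := Real.log_nonneg hN'
  have hp2 : ∀ t : IP P, (2 : ℝ) ≤ (prP P t : ℝ) := fun t => aux_p _ (hP t.1 t.2).1
  have hle : ∏ t : IP P, (1 + K / ((prP P t : ℝ) - 1)) *
        ((prP P t : ℝ) / ((prP P t : ℝ) - 1)) ≤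
      (∏ t : IP P, (1 + 2 * K / (prP P t : ℝ))) *
        ∏ t : IP P, (1 + 2 / (prP P t : ℝ)) := by
    rw [← Finset.prod_mul_distrib]
    apply Finset.prod_le_prod
    · intro t _
      have := hp2 t
      have h3 : 0 < (prP P t : ℝ) - 1 := by linarith
      positivity
    · intro t _
      have := hp2 t
      have h3 : 0 < (prP P t : ℝ) - 1 := by linarith
      have h4 : 1 / ((prP P t : ℝ) - 1) ≤ 2 / (prP P t : ℝ) := by
        rw [div_le_div_iff₀ h3 (by linarith)]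
        linarith
      have h5 : 1 + K / ((prP P t : ℝ) - 1) ≤ 1 + 2 * K / (prP P t : ℝ) := by
        have := mul_le_mul_of_nonneg_left h4 hK
        have e1 : K * (1 / ((prP P t : ℝ) - 1)) = K / ((prP P t : ℝ) - 1) := by ring
        have e2 : K * (2 / (prP P t : ℝ)) = 2 * K / (prP P t : ℝ) := by ring
        linarith
      have h6 : (prP P t : ℝ) / ((prP P t : ℝ) - 1) ≤ 1 + 2 / (prP P t : ℝ) := by
        have e3 : (prP P t : ℝ) / ((prP P t : ℝ) - 1) = 1 + 1 / ((prP P t : ℝ) - 1) := by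
          field_simp
          ring
        linarith
      have h7 : 0 ≤ (prP P t : ℝ) / ((prP P t : ℝ) - 1) := by positivity
      have h8 : 0 ≤ 1 + 2 * K / (prP P t : ℝ) := by positivity
      exact mul_le_mul h5 h6 h7 h8
  have hnn : 0 ≤ ∏ t : IP P, (1 + K / ((prP P t : ℝ) - 1)) *
        ((prP P t : ℝ) / ((prP P t : ℝ) - 1)) := by
    apply Finset.prod_nonneg
    intro t _
    have := hp2 t
    have h3 : 0 < (prP P t : ℝ) - 1 := by linarith
    positivity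
  have hn1 : 0 ≤ ∏ t : IP P, (1 + 2 * K / (prP P t : ℝ)) := by
    apply Finset.prod_nonneg
    intro t _
    positivity
  have hn2 : 0 ≤ ∏ t : IP P, (1 + 2 / (prP P t : ℝ)) := by
    apply Finset.prod_nonneg
    intro t _
    positivity
  calc _ ≤ ((∏ t : IP P, (1 + 2 * K / (prP P t : ℝ))) *
        ∏ t : IP P, (1 + 2 / (prP P t : ℝ))) ^ 2 := by gcongr
    _ ≤ ((C1 * (Real.log N) ^ m1) * (C2 * (Real.log N) ^ m2)) ^ 2 := by gcongr
    _ = _ := by rw [pow_mul, pow_add]; ring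

theorem omega_sum {C' : ℝ} (hC' : 0 < C') {c : ℝ}
    (hΩ : ∀ n : ℕ, 1 ≤ n → c ^ n.primeFactors.card ≤ C' * (n : ℝ) ^ (1 / 100 : ℝ)) {N R : ℝ}
    (hN : 1 ≤ N) (hR : R ≤ N ^ (1 / 2 : ℝ)) :
    ∑ q ∈ (Icc 1 ⌊R⌋₊).filter Squarefree, c ^ q.primeFactors.card ≤
      C' * N ^ (101 / 200 : ℝ) := by
  have hN0 : 0 < N := by linarith
  calc ∑ q ∈ (Icc 1 ⌊R⌋₊).filter Squarefree, c ^ q.primeFactors.card
      ≤ ∑ q ∈ (Icc 1 ⌊R⌋₊).filter Squarefree, C' * N ^ (1 / 200 : ℝ) := by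
        apply Finset.sum_le_sum
        intro q hq
        rw [Finset.mem_filter, Finset.mem_Icc] at hq
        refine (hΩ q hq.1.1).trans ?_
        have h1 : (q : ℝ) ≤ N ^ (1 / 2 : ℝ) := by
          refine (Nat.cast_le.2 (hq.1.2.trans (Nat.floor_le_floor hR))).trans
            (Nat.floor_le (by positivity))
        have h2 : N ^ (1 / 200 : ℝ) = (N ^ (1 / 2 : ℝ)) ^ (1 / 100 : ℝ) := by
          rw [← Real.rpow_mul hN0.le]; norm_num
        rw [h2]
        gcongr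
    _ ≤ ∑ q ∈ Icc 1 ⌊N ^ (1 / 2 : ℝ)⌋₊, C' * N ^ (1 / 200 : ℝ) := by
        apply Finset.sum_le_sum_of_subset_of_nonneg
        · intro q hq
          rw [Finset.mem_filter, Finset.mem_Icc] at hq
          rw [Finset.mem_Icc]
          exact ⟨hq.1.1, hq.1.2.trans (Nat.floor_le_floor hR)⟩
        · intro _ _ _
          positivity
    _ = (⌊N ^ (1 / 2 : ℝ)⌋₊ : ℝ) * (C' * N ^ (1 / 200 : ℝ)) := by
        rw [Finset.sum_const, Nat.card_Icc, nsmul_eq_mul]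
        simp
    _ ≤ N ^ (1 / 2 : ℝ) * (C' * N ^ (1 / 200 : ℝ)) := by
        gcongr
        exact Nat.floor_le (by positivity)
    _ = C' * N ^ (101 / 200 : ℝ) := by
        rw [show (101 / 200 : ℝ) = 1 / 2 + 1 / 200 by norm_num, Real.rpow_add hN0]
        ring

theorem main (h : Pool.Agent.H410R2.BVAP) : ErrU := by
  intro k a W ρ κ1 c1 c2 A B ha hW hρ hρ1 hκ1 hc1
  set K : ℝ := ((k + 1 : ℕ) : ℝ) with hKd
  have hK1 : 1 ≤ K := by rw [hKd]; exact_mod_cast Nat.succ_le_succ (Nat.zero_le k)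
  have hK0 : 0 ≤ K := by linarith
  obtain ⟨C1, hC1, m1, hpre⟩ := prefac hK0
  obtain ⟨X0, hX⟩ := h (a * W) (Nat.mul_pos ha hW) (3 * K) (by linarith) (ρ / 2) (by linarith)
    (A + B + m1 + 1)
  obtain ⟨C', hC', hΩ⟩ := Pool.Agent.H361R2.omegaBound (3 * K) (by linarith) (1 / 100)
    (by norm_num)
  have ha1 : (1 : ℝ) ≤ a := by exact_mod_cast ha
  set c : ℝ := |c2| + 1 with hcd
  have hc0 : 1 ≤ c := by have := abs_nonneg c2; linarith
  set G : ℝ := 3 * a * c with hG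
  have hG1 : 1 ≤ G := by rw [hG]; nlinarith
  set s : ℝ := 1 / 2 - ρ / 2 with hs
  -- the constants
  set q1 : ℝ := C1 * (1 / κ1) * (4 * G * 2 ^ (A + B + m1 + 1)) with hq1
  set q2 : ℝ := C1 * (1 / κ1) * (16 * (a : ℝ) ^ 2 * (|Real.log G| + 2) * C') with hq2
  have hcast := tendsto_natCast_atTop_atTop (R := ℝ)
  have e0 : ∀ᶠ N : ℕ in atTop, X0 ≤ c1 / 3 * N :=
    (hcast.const_mul_atTop (by positivity : 0 < c1 / 3)).eventually_ge_atTop X0
  have e1 : ∀ᶠ N : ℕ in atTop, ((c1 / 3) ^ s)⁻¹ * (Real.log N) ^ B * (N : ℝ) ^ (1 / 2 - ρ : ℝ) ≤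
      (N : ℝ) ^ s := hcast.eventually (ev_polylog _ B _ _ (by rw [hs]; linarith))
  have e2 : ∀ᶠ N : ℕ in atTop, 1 * (Real.log N) ^ B * (N : ℝ) ^ (1 / 2 - ρ : ℝ) ≤
      (N : ℝ) ^ (1 / 2 : ℝ) := hcast.eventually (ev_polylog _ B _ _ (by linarith))
  have e3 : ∀ᶠ N : ℕ in atTop, (2 * q2) * (Real.log N) ^ (A + B + m1 + 1) *
      (N : ℝ) ^ (101 / 200 : ℝ) ≤ (N : ℝ) ^ (1 : ℝ) :=
    hcast.eventually (ev_polylog _ _ _ _ (by norm_num))
  have hlog := Real.tendsto_log_atTop.comp hcast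
  have e4 : ∀ᶠ N : ℕ in atTop, 2 * q1 ≤ Real.log N := hlog.eventually_ge_atTop _
  have e5 : ∀ᶠ N : ℕ in atTop, 1 ≤ Real.log N := hlog.eventually_ge_atTop _
  have e6 : ∀ᶠ N : ℕ in atTop, -2 * Real.log (c1 / 3) ≤ Real.log N := hlog.eventually_ge_atTop _
  filter_upwards [e0, e1, e2, e3, e4, e5, e6, eventually_ge_atTop 3] with N e0 e1 e2 e3 e4 e5 e6
    hN P hP b x0 κ Y hb hx1 hx2 hκ hκ' hY0 hY
  have hN3 : (3 : ℝ) ≤ N := by exact_mod_cast hN
  have hN0 : (0 : ℝ) < N := by linarith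
  set ℓ := Real.log N with hℓ
  have hx0 : 0 < x0 := by have : 0 < c1 * N := by positivity
                          linarith
  have hx2' : x0 ≤ c * N := by
    refine hx2.trans ?_
    have := le_abs_self c2
    have h1 : c2 ≤ c := by linarith
    exact mul_le_mul_of_nonneg_right h1 hN0.le
  have hκ0 : 0 < κ := by linarith
  have hexp1 : Real.exp κ ≤ 3 := by
    have h1 : Real.exp κ ≤ Real.exp 1 := Real.exp_le_exp.2 hκ'
    have h2 := Real.exp_one_lt_d9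
    linarith
  have hexp1' : 1 ≤ Real.exp κ := Real.one_le_exp hκ0.le
  have hexp2 : 1 / 3 ≤ Real.exp (-κ) := by
    rw [Real.exp_neg, one_div]
    exact inv_anti₀ (Real.exp_pos _) hexp1
  have hexp2' : Real.exp (-κ) ≤ 1 := Real.exp_le_one_iff.2 (by linarith)
  -- `R`
  have hRe : Y * (Real.exp ((1 / 4 - ρ / 2) * Real.log N)) ^ 2 = Y * (N : ℝ) ^ (1 / 2 - ρ : ℝ) := by
    rw [Real.rpow_def_of_pos hN0, ← Real.exp_nat_mul]
    congr 2
    push_cast
    ring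
  rw [hRe]
  set R := Y * (N : ℝ) ^ (1 / 2 - ρ : ℝ) with hRd
  have hRle : R ≤ ℓ ^ B * (N : ℝ) ^ (1 / 2 - ρ : ℝ) :=
    mul_le_mul_of_nonneg_right hY (by positivity)
  have hR2 : R ≤ (N : ℝ) ^ (1 / 2 : ℝ) := by
    rw [one_mul] at e2
    exact hRle.trans e2
  -- the three levels
  have key : ∀ X : ℝ, c1 / 3 * N ≤ X → X ≤ G * N →
      ∑ q ∈ (Icc 1 ⌊R⌋₊).filter Squarefree, (3 * K) ^ q.primeFactors.card *
        Est X (a * (W * q)) ≤ G * N / (ℓ / 2) ^ (A + B + m1 + 1) := by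
    intro X h1 h2
    have hX0 : 0 < X := lt_of_lt_of_le (by positivity) h1
    have h3 := hX X (e0.trans h1)
    have hRX : R ≤ X ^ s := by
      have h4 : (c1 / 3 * N) ^ s ≤ X ^ s := by
        apply Real.rpow_le_rpow (by positivity) h1
        rw [hs]; linarith
      have h5 : (c1 / 3 * (N : ℝ)) ^ s = (c1 / 3) ^ s * (N : ℝ) ^ s :=
        Real.mul_rpow (by positivity) hN0.le
      have h6 : 0 < (c1 / 3) ^ s := by positivity
      have h7 : ℓ ^ B * (N : ℝ) ^ (1 / 2 - ρ : ℝ) ≤ (c1 / 3) ^ s * (N : ℝ) ^ s := by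
        have h8 := mul_le_mul_of_nonneg_left e1 h6.le
        have h9 : (c1 / 3) ^ s * (((c1 / 3) ^ s)⁻¹ * ℓ ^ B * (N : ℝ) ^ (1 / 2 - ρ : ℝ)) =
            ℓ ^ B * (N : ℝ) ^ (1 / 2 - ρ : ℝ) := by
          field_simp
        rwa [h9] at h8
      rw [← h5] at h7
      exact hRle.trans (h7.trans h4)
    have h4 : ∑ q ∈ (Icc 1 ⌊R⌋₊).filter Squarefree, (3 * K) ^ q.primeFactors.card *
        Est X (a * (W * q)) ≤ X / (Real.log X) ^ (A + B + m1 + 1) := by
      have h5 := est_sum (m0 := a * W) (c := 3 * K) (s := s) (by linarith) h3 hRX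
      simpa only [mul_assoc] using h5
    refine h4.trans ?_
    have h5 : ℓ / 2 ≤ Real.log X := by
      have h6 : Real.log (c1 / 3 * N) ≤ Real.log X := Real.log_le_log (by positivity) h1
      rw [Real.log_mul (by positivity) hN0.ne'] at h6
      linarith
    have h6 : 0 < ℓ / 2 := by linarith
    gcongr
  have hb1 : (b : ℝ) ≤ a := by exact_mod_cast hb
  have hXa := key (a * (x0 * Real.exp κ)) (by
      have h1 : c1 / 3 * N ≤ x0 := by
        have : 0 < c1 * N := by positivity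
        linarith
      have h2 : x0 ≤ x0 * Real.exp κ := le_mul_of_one_le_right hx0.le hexp1'
      have h3 : x0 * Real.exp κ ≤ a * (x0 * Real.exp κ) :=
        le_mul_of_one_le_left (by positivity) ha1
      linarith) (by
      rw [hG]
      have h1 : x0 * Real.exp κ ≤ (c * N) * 3 := by gcongr
      have h2 : a * (x0 * Real.exp κ) ≤ a * ((c * N) * 3) := by gcongr
      linarith)
  have hXb := key (a * x0) (by
      have h1 : c1 / 3 * N ≤ x0 := by
        have : 0 < c1 * N := by positivity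
        linarith
      have h3 : x0 ≤ a * x0 := le_mul_of_one_le_left (by positivity) ha1
      linarith) (by
      rw [hG]
      have h2 : a * x0 ≤ a * (c * N) := by gcongr
      have h3 : 0 ≤ a * (c * N) := by positivity
      linarith)
  have hXc := key (a * (x0 * Real.exp (-κ))) (by
      have h2 : x0 * (1 / 3) ≤ x0 * Real.exp (-κ) := by gcongr
      have h3 : x0 * Real.exp (-κ) ≤ a * (x0 * Real.exp (-κ)) :=
        le_mul_of_one_le_left (by positivity) ha1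
      linarith) (by
      rw [hG]
      have h1 : x0 * Real.exp (-κ) ≤ (c * N) * 1 := by gcongr
      have h2 : a * (x0 * Real.exp (-κ)) ≤ a * ((c * N) * 1) := by gcongr
      have h3 : 0 ≤ a * (c * N) := by positivity
      linarith)
  have hOm := omega_sum hC' hΩ (by linarith : (1 : ℝ) ≤ N) hR2
  set E1 := G * N / (ℓ / 2) ^ (A + B + m1 + 1) with hE1
  -- the logarithm
  have hlg : Real.log (a * (x0 * Real.exp κ)) + 1 ≤ (|Real.log G| + 2) * ℓ := by
    have h1 : a * (x0 * Real.exp κ) ≤ G * N := by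
      rw [hG]
      have h1 : x0 * Real.exp κ ≤ (c * N) * 3 := by gcongr
      have h2 : a * (x0 * Real.exp κ) ≤ a * ((c * N) * 3) := by gcongr
      linarith
    have h2 : Real.log (a * (x0 * Real.exp κ)) ≤ Real.log (G * N) :=
      Real.log_le_log (by positivity) h1
    rw [Real.log_mul (by positivity) hN0.ne'] at h2
    have h3 := le_abs_self (Real.log G)
    have h4 : |Real.log G| ≤ |Real.log G| * ℓ := le_mul_of_one_le_right (abs_nonneg _) e5
    linarith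
  -- the sum of the deviations
  have hsum : ∑ m ∈ (Icc 1 ⌊R⌋₊).filter Squarefree, (3 * K) ^ m.primeFactors.card *
      Dev a b x0 κ (W * m) ≤ 1 / κ1 * (4 * E1 +
        16 * (a : ℝ) ^ 2 * ((|Real.log G| + 2) * ℓ) * (C' * (N : ℝ) ^ (101 / 200 : ℝ))) := by
    have h1 : ∑ m ∈ (Icc 1 ⌊R⌋₊).filter Squarefree, (3 * K) ^ m.primeFactors.card *
        Dev a b x0 κ (W * m) = 1 / κ * (
        ∑ m ∈ (Icc 1 ⌊R⌋₊).filter Squarefree, (3 * K) ^ m.primeFactors.card *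
          Est (a * (x0 * Real.exp κ)) (a * (W * m)) +
        2 * ∑ m ∈ (Icc 1 ⌊R⌋₊).filter Squarefree, (3 * K) ^ m.primeFactors.card *
          Est (a * x0) (a * (W * m)) +
        ∑ m ∈ (Icc 1 ⌊R⌋₊).filter Squarefree, (3 * K) ^ m.primeFactors.card *
          Est (a * (x0 * Real.exp (-κ))) (a * (W * m)) +
        4 * (((a : ℝ) + b) ^ 2 * (Real.log (a * (x0 * Real.exp κ)) + 1)) *
          ∑ m ∈ (Icc 1 ⌊R⌋₊).filter Squarefree, (3 * K) ^ m.primeFactors.card) := by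
      rw [Finset.mul_sum, Finset.mul_sum, ← Finset.sum_add_distrib, ← Finset.sum_add_distrib,
        ← Finset.sum_add_distrib, Finset.mul_sum]
      refine Finset.sum_congr rfl fun m _ => ?_
      unfold Dev
      ring
    rw [h1]
    have hn1 : 0 ≤ ∑ m ∈ (Icc 1 ⌊R⌋₊).filter Squarefree, (3 * K) ^ m.primeFactors.card :=
      Finset.sum_nonneg fun m _ => by positivity
    have hab : ((a : ℝ) + b) ^ 2 ≤ 4 * (a : ℝ) ^ 2 := by
      have h2 : (a : ℝ) + b ≤ 2 * a := by linarith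
      have h3 : ((a : ℝ) + b) ^ 2 ≤ (2 * a) ^ 2 := by
        apply pow_le_pow_left₀ (by positivity) h2
      linarith
    have hlg0 : 0 ≤ (|Real.log G| + 2) * ℓ := by
      have := abs_nonneg (Real.log G)
      positivity
    have h4 : 4 * (((a : ℝ) + b) ^ 2 * (Real.log (a * (x0 * Real.exp κ)) + 1)) *
          ∑ m ∈ (Icc 1 ⌊R⌋₊).filter Squarefree, (3 * K) ^ m.primeFactors.card ≤
        16 * (a : ℝ) ^ 2 * ((|Real.log G| + 2) * ℓ) * (C' * (N : ℝ) ^ (101 / 200 : ℝ)) := by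
      have h5 : ((a : ℝ) + b) ^ 2 * (Real.log (a * (x0 * Real.exp κ)) + 1) ≤
          (4 * (a : ℝ) ^ 2) * ((|Real.log G| + 2) * ℓ) := by
        calc ((a : ℝ) + b) ^ 2 * (Real.log (a * (x0 * Real.exp κ)) + 1) ≤
            ((a : ℝ) + b) ^ 2 * ((|Real.log G| + 2) * ℓ) := by gcongr
          _ ≤ _ := by gcongr
      calc _ ≤ 4 * ((4 * (a : ℝ) ^ 2) * ((|Real.log G| + 2) * ℓ)) *
            (C' * (N : ℝ) ^ (101 / 200 : ℝ)) := by gcongr
        _ = _ := by ring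
    have hinv : 1 / κ ≤ 1 / κ1 := one_div_le_one_div_of_le hκ1 hκ
    have hE1n : 0 ≤ E1 := by rw [hE1]; positivity
    have htot : 0 ≤ 4 * E1 +
        16 * (a : ℝ) ^ 2 * ((|Real.log G| + 2) * ℓ) * (C' * (N : ℝ) ^ (101 / 200 : ℝ)) := by
      positivity
    calc _ ≤ 1 / κ * (4 * E1 +
        16 * (a : ℝ) ^ 2 * ((|Real.log G| + 2) * ℓ) * (C' * (N : ℝ) ^ (101 / 200 : ℝ))) := by
          apply mul_le_mul_of_nonneg_left _ (by positivity)
          linarith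
      _ ≤ _ := mul_le_mul_of_nonneg_right hinv htot
  have hpre := hpre N hN P hP
  have hsum0 : 0 ≤ 1 / κ1 * (4 * E1 +
        16 * (a : ℝ) ^ 2 * ((|Real.log G| + 2) * ℓ) * (C' * (N : ℝ) ^ (101 / 200 : ℝ))) := by
    have hE1n : 0 ≤ E1 := by rw [hE1]; positivity
    have hlg0 : 0 ≤ (|Real.log G| + 2) * ℓ := by
      have := abs_nonneg (Real.log G)
      positivity
    positivity
  have hℓ0 : 0 < ℓ := by linarith
  have hfirst : ℓ ^ B * (C1 * ℓ ^ m1 * (1 / κ1 * (4 * E1))) ≤ N / ℓ ^ A / 2 := by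
    have h1 : ℓ ^ B * (C1 * ℓ ^ m1 * (1 / κ1 * (4 * E1))) = q1 * N / (ℓ ^ A * ℓ) := by
      rw [hE1, hq1, div_pow]
      have e : ℓ ^ (A + B + m1 + 1) = ℓ ^ A * ℓ ^ B * ℓ ^ m1 * ℓ := by
        rw [pow_succ, pow_add, pow_add]
      rw [e]
      field_simp
    rw [h1, div_div, div_le_div_iff₀ (by positivity) (by positivity)]
    have h2 : q1 * 2 ≤ ℓ := by linarith
    have h3 : 0 ≤ (N : ℝ) * ℓ ^ A := by positivity
    calc q1 * N * (ℓ ^ A * 2) = (q1 * 2) * (N * ℓ ^ A) := by ring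
      _ ≤ ℓ * (N * ℓ ^ A) := mul_le_mul_of_nonneg_right h2 h3
      _ = _ := by ring
  have hsecond : ℓ ^ B * (C1 * ℓ ^ m1 * (1 / κ1 *
      (16 * (a : ℝ) ^ 2 * ((|Real.log G| + 2) * ℓ) * (C' * (N : ℝ) ^ (101 / 200 : ℝ))))) ≤
      N / ℓ ^ A / 2 := by
    rw [div_div, le_div_iff₀ (by positivity)]
    rw [Real.rpow_one] at e3
    have e : ℓ ^ (A + B + m1 + 1) = ℓ ^ A * ℓ ^ B * ℓ ^ m1 * ℓ := by
      rw [pow_succ, pow_add, pow_add]
    rw [e, hq2] at e3
    calc _ = 2 * (C1 * (1 / κ1) * (16 * (a : ℝ) ^ 2 * (|Real.log G| + 2) * C')) *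
        (ℓ ^ A * ℓ ^ B * ℓ ^ m1 * ℓ) * (N : ℝ) ^ (101 / 200 : ℝ) := by ring
      _ ≤ _ := e3
  calc _ ≤ ℓ ^ B * ((C1 * ℓ ^ m1) * (1 / κ1 * (4 * E1 +
        16 * (a : ℝ) ^ 2 * ((|Real.log G| + 2) * ℓ) * (C' * (N : ℝ) ^ (101 / 200 : ℝ))))) := by
        apply mul_le_mul_of_nonneg_left _ (by positivity)
        calc _ ≤ _ * (1 / κ1 * (4 * E1 + 16 * (a : ℝ) ^ 2 * ((|Real.log G| + 2) * ℓ) *
              (C' * (N : ℝ) ^ (101 / 200 : ℝ)))) :=
              mul_le_mul_of_nonneg_left hsum (sq_nonneg _)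
          _ ≤ _ := mul_le_mul_of_nonneg_right hpre hsum0
    _ = ℓ ^ B * (C1 * ℓ ^ m1 * (1 / κ1 * (4 * E1))) + ℓ ^ B * (C1 * ℓ ^ m1 * (1 / κ1 *
      (16 * (a : ℝ) ^ 2 * ((|Real.log G| + 2) * ℓ) * (C' * (N : ℝ) ^ (101 / 200 : ℝ))))) := by
        ring
    _ ≤ N / ℓ ^ A / 2 + N / ℓ ^ A / 2 := add_le_add hfirst hsecond
    _ = _ := by ring

end Pool.Agent.W493.UN.ER
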