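import Pool.Agent.W25.UN.Stm2
import Pool.Agent.H362R2.CM.S1L
import Pool.Agent.H398R2.Ari
import Pool.Agent.H361R2.T3

/-! Project UN (helper25), part QL: lower bound of the model form. -/

set_option autoImplicit false

namespace Pool.Agent.W493.UN.QL

open Finset
open Pool.Agent.H410R2 hiding GP GP_prof GP_cut_some GP_cut_none GP_lip gg_pos gg_le_one gg_anti ee_bound ee_nonneg gg_lip LB_gg LB_ee Sums exists_sums yx wx wxi Br sum_GP_none sum_GP_some sum_GP_some_ee sum_GP_some_one sum_GPr_none sum_GPr_some S1_final QI_final S2_final w_abs_le wmax gg ee I1 I2 IE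
open Pool.Agent.H361R2.GM
open Pool.Agent.H362R2.CM
open Pool.Agent.W25.UN

theorem main : QLow := by
  intro k
  obtain ⟨D0, hD0⟩ := exists_ctx Pool.Agent.H398R2.ariSetup (fun i : Fin k => (i : ℕ) + 1)
    (fun i : Fin k => (i : ℕ) + 2) (fun i => by omega) (fun i => by omega) (by
      intro i j hij h
      apply hij
      apply Fin.ext
      have e1 : ((i : ℕ) + 1) * ((j : ℕ) + 2) = i * j + 2 * i + j + 2 := by ring
      have e2 : ((j : ℕ) + 1) * ((i : ℕ) + 2) = i * j + 2 * j + i + 2 := by ring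
      rw [e1, e2] at h
      omega) (by
      intro p hp
      have h2 := hp.two_le
      refine ⟨p - 1, ?_, ?_⟩
      · intro h
        have := Nat.le_of_dvd (by omega) h
        omega
      · intro i h
        have e1 : ((i : ℕ) + 1) * (p - 1) + ((i : ℕ) + 2) = ((i : ℕ) + 1) * p + 1 := by
          obtain ⟨m, rfl⟩ : ∃ m, p = m + 1 := ⟨p - 1, by omega⟩
          rw [Nat.add_sub_cancel]
          ring
        rw [e1] at h
        have h3 : p ∣ 1 := (Nat.dvd_add_right (Dvd.intro_left _ rfl)).1 h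
        have := Nat.le_of_dvd (by omega) h3
        omega)
  refine ⟨D0, ?_⟩
  intro D' Q ε hD hε hε1 hI1 hI2 hBr L P hL hP hκ hovl hS i
  obtain ⟨v, hc⟩ := hD0 D' hD
  exact QI_P_lower Q Pool.Agent.H361R2.s2Model hc ε hε hε1 hI1 hI2 hBr L hL P hP hκ hovl hS i

end Pool.Agent.W493.UN.QL
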