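import Pool.Agent.W25.UN.Stm2
import Pool.Agent.H398R2.Ari

/-! Project UN (helper25), part WD: facts on the small modulus. -/

set_option autoImplicit false

namespace Pool.Agent.W493.UN.WD

open Finset
open Pool.Agent.H410R2 (WW BD)
open Pool.Agent.H398R2.Ari
open Pool.Agent.W25.UN

theorem main : WFacts := by
  refine ⟨1, fun D _ => ⟨Nat.one_le_iff_ne_zero.mpr (WW_ne D), totient_WW D, BD_pos D, ?_, ?_⟩⟩
  · intro p hp
    constructor
    · intro h
      by_contra hlt
      have h1 := big_coprime_WW hp (D := D) (by omega)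
      rw [Nat.Prime.coprime_iff_not_dvd hp] at h1
      exact h1 h
    · exact fun h => dvd_WW hp h
  · intro N k α h hadm
    classical
    choose f hf using hadm
    let g : ℕ → ℕ := fun p => if hp : p.Prime then (f p hp % (p : ℤ)).toNat else 0
    obtain ⟨v, hv⟩ := Nat.chineseRemainderOfFinset g id ((Icc 1 D).filter Nat.Prime)
      (fun p hp => (prime_of_mem hp).ne_zero)
      (fun p hp q hq hpq => (Nat.coprime_primes (prime_of_mem hp) (prime_of_mem hq)).mpr hpq)
    refine ⟨v, ?_⟩
    intro j n hn
    rw [Int.isCoprime_iff_gcd_eq_one]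
    have key : Nat.Coprime (uB α j * n + wB h N j).natAbs (WW D) := by
      apply coprime_WW
      intro p hp hpD hd
      have h1 := hv p (mem_filter.mpr ⟨mem_Icc.mpr ⟨hp.one_le, hpD⟩, hp⟩)
      simp only [id, g, dif_pos hp] at h1
      have hp0 : (p : ℤ) ≠ 0 := by exact_mod_cast hp.ne_zero
      have h2 : ((f p hp % (p : ℤ)).toNat : ℤ) = f p hp % p :=
        Int.toNat_of_nonneg (Int.emod_nonneg _ hp0)
      have h3 : (v : ℤ) ≡ f p hp [ZMOD p] := by
        have h4 : (v : ℤ) ≡ ((f p hp % (p : ℤ)).toNat : ℤ) [ZMOD p] :=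
          (Int.natCast_modEq_iff).2 h1
        rw [h2] at h4
        exact h4.trans (Int.mod_modEq _ _)
      have h5 : n ≡ f p hp [ZMOD p] := by
        have h6 : n ≡ v [ZMOD p] := hn.of_dvd (by exact_mod_cast dvd_WW hp hpD)
        exact h6.trans h3
      have hd' : (p : ℤ) ∣ uB α j * n + wB h N j := Int.natCast_dvd.2 hd
      have h7 : uB α j * n + wB h N j ≡ uB α j * f p hp + wB h N j [ZMOD p] :=
        (h5.mul_left _).add_right _
      have h8 : (p : ℤ) ∣ uB α j * f p hp + wB h N j :=
        (Int.ModEq.dvd_iff h7).1 hd'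
      cases j with
      | none =>
        apply (hf p hp).1
        simpa [uB, wB] using h8
      | some i =>
        apply (hf p hp).2 i
        unfold Fm
        have h9 : (N : ℤ) + α i * f p hp + h i = uB α (some i) * f p hp + wB h N (some i) := by
          simp only [uB, wB]; ring
        rw [h9]
        exact h8
    exact key

end Pool.Agent.W493.UN.WD
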